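import Pool.Agent.Helper99.LN.Defs
import Pool.Agent.Helper22.L.DEN

/-!
# The primes whose Frobenius elements fix no branch point (project LN, block DEN)
-/

set_option autoImplicit false

open NumberField Filter Topology IsDedekindDomain MulAction
open scoped Pointwise

namespace Pool.Agent.Helper22.LN

open Pool.Agent.LN Pool.Agent.HG Pool.Agent.Helper70.Art Pool.Agent.H53SCD Pool.Agent.Helper21.HG
open Pool.Agent.Helper22.HG
open Pool.Agent.Helper22.L (der2 finite_zeros' eval_unit trans_nonunit phi_nonunit exists_gen int_mem)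
open Pool.Agent.L (OverV)

noncomputable section

/-! ## The branch points -/

section branch

open VC Polynomial IntermediateField

/-- `φ` is a point of the residue field of the branch point `P` -/
def Emb (k : Type) {K0 E : Type} [Field k] [Field K0] [Field E] [Algebra k K0] [Algebra k E] (n : ℕ) (h : K0)
    (P : ValuationSubring K0) (φ : P →+* E) : Prop :=
  (∀ a : k, algebraMap k K0 a ∈ P) ∧ (∀ z : K0, P.valuation h ≠ P.valuation z ^ n) ∧
    ∀ (a : k) (x : P), (x : K0) = algebraMap k K0 a → φ x = algebraMap k E a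

variable {k K0 E : Type} [Field k] [NumberField k] [Field K0] [Algebra k K0] [Field E] [Algebra k E]
  [Algebra.IsAlgebraic k E]

theorem odd_nonunit {n : ℕ} (hn : 2 ≤ n) {h : K0} {P : ValuationSubring K0}
    (hP : ∀ z : K0, P.valuation h ≠ P.valuation z ^ n) :
    h ≠ 0 ∧ (h ∈ P.nonunits ∨ h⁻¹ ∈ P.nonunits) := by
  have h0 : h ≠ 0 := by
    rintro rfl
    exact hP 0 (by rw [map_zero, zero_pow (by omega)])
  refine ⟨h0, ?_⟩
  by_contra hcon
  rw [not_or, ValuationSubring.mem_nonunits_iff, ValuationSubring.mem_nonunits_iff, not_lt, not_lt,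
    map_inv₀, one_le_inv₀ (zero_lt_iff.2 ((Valuation.ne_zero_iff _).2 h0))] at hcon
  exact hP 1 (by rw [map_one, one_pow]; exact le_antisymm hcon.2 hcon.1)

omit [NumberField k] in
theorem finite_odd [CharZero k] {n : ℕ} (hn : 2 ≤ n) (hF : IsFunctionField k K0) (h : K0) :
    {P : ValuationSubring K0 | (∀ a : k, algebraMap k K0 a ∈ P) ∧
      ∀ z : K0, P.valuation h ≠ P.valuation z ^ n}.Finite := by
  have hinv : ∀ {x : K0}, Transcendental k x → Transcendental k x⁻¹ := by
    intro x hx halg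
    exact hx (by rw [← inv_inv x]; exact halg.inv)
  by_cases htr : Transcendental k h
  · refine (((finite_zeros' hF htr).union (finite_zeros' hF (hinv htr))).image Place.ring).subset ?_
    rintro P ⟨hk, hodd⟩
    obtain ⟨h0, h1⟩ := odd_nonunit hn hodd
    have htop : P ≠ ⊤ := by
      rintro rfl
      rcases h1 with h1 | h1
      · rcases (ValuationSubring.mem_nonunits_iff_or _).1 h1 with h2 | h2
        · exact h0 h2
        · exact h2 (ValuationSubring.mem_top _)
      · rcases (ValuationSubring.mem_nonunits_iff_or _).1 h1 with h2 | h2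
        · exact inv_ne_zero h0 h2
        · exact h2 (ValuationSubring.mem_top _)
    exact ⟨⟨P, hk, htop⟩, h1, rfl⟩
  · convert Set.finite_empty
    rw [Set.eq_empty_iff_forall_notMem]
    rintro P ⟨hk, hodd⟩
    obtain ⟨h0, h1⟩ := odd_nonunit hn hodd
    rcases h1 with h1 | h1
    · exact htr (trans_nonunit P hk h0 h1)
    · have h2 := hinv (trans_nonunit P hk (inv_ne_zero h0) h1)
      rw [inv_inv] at h2
      exact htr h2

/-- For every branch point an algebraic integer which generates its residue field. -/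
theorem exists_theta {n : ℕ} (hn : 2 ≤ n) (hF : IsFunctionField k K0) (h : K0) (P : ValuationSubring K0)
    (hex : ∃ φ : P →+* E, Emb k n h P φ) :
    ∃ θ : E, IsIntegral ℤ θ ∧ ∃ (φ : P →+* E) (a : P), Emb k n h P φ ∧ φ a = θ ∧ ∀ x, φ x ∈ k⟮θ⟯ := by
  obtain ⟨φ, hφ⟩ := hex
  have hk := hφ.1
  obtain ⟨a, ha⟩ : ∃ a : P, ∀ x : P, φ x ∈ k⟮φ a⟯ := by
    obtain ⟨h0, h1 | h1⟩ := odd_nonunit hn hφ.2.1
    · exact exists_gen hF P hk h0 h1 φ hφ.2.2
    · exact exists_gen hF P hk (inv_ne_zero h0) h1 φ hφ.2.2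
  have hc : CharZero E := charZero_of_injective_algebraMap (algebraMap k E).injective
  have halg : IsAlgebraic ℤ (φ a) := by
    have h1 : Algebra.IsAlgebraic ℚ E := Algebra.IsAlgebraic.trans ℚ k E
    exact (IsFractionRing.isAlgebraic_iff ℤ ℚ E).2 (h1.isAlgebraic _)
  obtain ⟨m, hm0, hm⟩ := halg.exists_integral_multiple
  refine ⟨m • φ a, hm, φ, m • a, hφ, by rw [map_zsmul], fun x => ?_⟩
  have hle : k⟮φ a⟯ ≤ k⟮m • φ a⟯ := by
    rw [adjoin_simple_le_iff]
    have h1 : φ a = (algebraMap k E (m : k))⁻¹ * (m • φ a) := by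
      have h2 : (m : E) ≠ 0 := by exact_mod_cast hm0
      rw [zsmul_eq_mul, map_intCast, ← mul_assoc, inv_mul_cancel₀ h2, one_mul]
    have h3 : (algebraMap k E (m : k))⁻¹ * (m • φ a) ∈ k⟮m • φ a⟯ :=
      mul_mem (inv_mem (_root_.algebraMap_mem _ _)) (mem_adjoin_simple_self _ _)
    rwa [← h1] at h3
  exact hle (ha x)

/-- The finite set of algebraic integers which represents the branch points. -/
theorem exists_set [IsAlgClosed E] {n : ℕ} (hn : 2 ≤ n) (hF : IsFunctionField k K0) (h : K0) :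
    ∃ Ω : Finset E, (∀ ω ∈ Ω, IsIntegral ℤ ω) ∧ (∀ g : E ≃ₐ[k] E, ∀ ω ∈ Ω, g ω ∈ Ω) ∧
      ∀ g : E ≃ₐ[k] E, FixesBranch n h g ↔ ∃ ω ∈ Ω, g ω = ω := by
  classical
  have hcl : IsAlgClosure k E := ⟨inferInstance, inferInstance⟩
  have hnor : Normal k E := IsAlgClosure.normal k E
  have hfin := finite_odd hn hF h
  have hch : ∀ P : ValuationSubring K0, ∃ θ : E, (∃ φ : P →+* E, Emb k n h P φ) → IsIntegral ℤ θ ∧
      ∃ (φ : P →+* E) (a : P), Emb k n h P φ ∧ φ a = θ ∧ ∀ x, φ x ∈ k⟮θ⟯ := by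
    intro P
    by_cases hex : ∃ φ : P →+* E, Emb k n h P φ
    · obtain ⟨θ, hθ⟩ := exists_theta hn hF h P hex
      exact ⟨θ, fun _ => hθ⟩
    · exact ⟨0, fun h => absurd h hex⟩
  choose Θ hΘ using hch
  let Ω : Finset E := (hfin.toFinset.filter
    (fun P : ValuationSubring K0 => ∃ φ : P →+* E, Emb k n h P φ)).biUnion
    (fun P => ((minpoly k (Θ P)).aroots E).toFinset)
  have hmem : ∀ ω, ω ∈ Ω ↔ ∃ P : ValuationSubring K0, (∃ φ : P →+* E, Emb k n h P φ) ∧
      aeval ω (minpoly k (Θ P)) = 0 := by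
    intro ω
    simp only [Ω, Finset.mem_biUnion, Finset.mem_filter, Set.Finite.mem_toFinset, Multiset.mem_toFinset]
    constructor
    · rintro ⟨P, ⟨-, hP⟩, hω⟩
      exact ⟨P, hP, (mem_aroots.1 hω).2⟩
    · rintro ⟨P, hP, hω⟩
      obtain ⟨φ, hφ⟩ := hP
      refine ⟨P, ⟨⟨hφ.1, hφ.2.1⟩, φ, hφ⟩, mem_aroots.2 ⟨minpoly.ne_zero ?_, hω⟩⟩
      exact (Algebra.IsAlgebraic.isAlgebraic (Θ P)).isIntegral
  have hconj : ∀ (P : ValuationSubring K0) (ω : E), aeval ω (minpoly k (Θ P)) = 0 →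
      ∃ τ : E ≃ₐ[k] E, τ (Θ P) = ω :=
    fun P ω hω => minpoly.exists_algEquiv_of_root' (Algebra.IsAlgebraic.isAlgebraic _) hω
  refine ⟨Ω, ?_, ?_, ?_⟩
  · intro ω hω
    obtain ⟨P, hP, hr⟩ := (hmem ω).1 hω
    obtain ⟨τ, rfl⟩ := hconj P ω hr
    exact (hΘ P hP).1.map (τ.toRingEquiv.toRingHom.toIntAlgHom)
  · intro g ω hω
    obtain ⟨P, hP, hr⟩ := (hmem ω).1 hω
    refine (hmem _).2 ⟨P, hP, ?_⟩
    rw [← AlgEquiv.coe_toAlgHom, aeval_algHom_apply, hr, map_zero]
  · intro g
    constructor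
    · rintro ⟨P, φ, hk, hodd, hφ, hfix⟩
      have hP : ∃ φ : P →+* E, Emb k n h P φ := ⟨φ, hk, hodd, hφ⟩
      obtain ⟨-, φ', a, hφ', ha, -⟩ := hΘ P hP
      refine ⟨φ a, (hmem _).2 ⟨P, hP, ?_⟩, hfix a⟩
      let a1 : Algebra k P := ((algebraMap k K0).codRestrict P.toSubring hk).toAlgebra
      let ψ : P →ₐ[k] E := { φ with commutes' := fun a => hφ a _ rfl }
      let ψ' : P →ₐ[k] E := { φ' with commutes' := fun a => hφ'.2.2 a _ rfl }
      have h1 : ψ' (aeval a (minpoly k (Θ P))) = 0 := by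
        rw [← aeval_algHom_apply]
        have : ψ' a = Θ P := ha
        rw [this, minpoly.aeval]
      have h2 : ((aeval a (minpoly k (Θ P)) : P) : K0) ∈ P.nonunits := by
        rw [ValuationSubring.coe_mem_nonunits_iff, IsLocalRing.mem_maximalIdeal, mem_nonunits_iff]
        intro hu
        exact (hu.map ψ').ne_zero h1
      have h3 := phi_nonunit P hk φ hφ _ h2
      have h4 : aeval (ψ a) (minpoly k (Θ P)) = ψ (aeval a (minpoly k (Θ P))) := aeval_algHom_apply _ _ _
      exact h4.trans h3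
    · rintro ⟨ω, hω, hgω⟩
      obtain ⟨P, hP, hr⟩ := (hmem ω).1 hω
      obtain ⟨τ, rfl⟩ := hconj P ω hr
      obtain ⟨-, φ, a, hφ, ha, hgen⟩ := hΘ P hP
      refine ⟨P, (τ : E →+* E).comp φ, hφ.1, hφ.2.1, fun b x hx => ?_, fun x => ?_⟩
      · rw [RingHom.comp_apply, hφ.2.2 b x hx]
        exact τ.commutes b
      · have h1 : ∀ y ∈ k⟮Θ P⟯, g (τ y) = τ y := by
          intro y hy
          induction hy using IntermediateField.adjoin_induction with
          | mem x hx =>
            rw [Set.mem_singleton_iff] at hx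
            rw [hx]
            exact hgω
          | algebraMap x => rw [AlgEquiv.commutes, AlgEquiv.commutes]
          | add x y _ _ hx hy => rw [map_add, map_add, hx, hy]
          | inv x _ hx => rw [map_inv₀, map_inv₀, hx]
          | mul x y _ _ hx hy => rw [map_mul, map_mul, hx, hy]
        exact h1 (φ x) (hgen x)

end branch

/-! ## Frobenius elements -/

/-- **BLOCK DEN.** -/
theorem den : StmtDEN := by
  classical
  intro k K0 _ _ _ _ n h hn hG σ hσ B hB
  obtain ⟨Ω, hint, hst, hfix⟩ := exists_set (E := AlgebraicClosure k) hn hG.ff h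
  have hσΩ : ∀ ω ∈ Ω, σ ω ≠ ω := fun ω hω e => hσ ((hfix σ).2 ⟨ω, hω, e⟩)
  -- the field generated by `Ω`
  let L : IntermediateField k (AlgebraicClosure k) := IntermediateField.adjoin k (Ω : Set (AlgebraicClosure k))
  have hfd : FiniteDimensional k L :=
    IntermediateField.finiteDimensional_adjoin fun x _ => (Algebra.IsAlgebraic.isAlgebraic x).isIntegral
  have hLn : Normal k L := by
    rw [IntermediateField.normal_iff_forall_map_le']
    intro g
    change (IntermediateField.adjoin k (Ω : Set (AlgebraicClosure k))).map _ ≤ _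
    rw [IntermediateField.adjoin_map, IntermediateField.adjoin_le_iff]
    rintro _ ⟨x, hx, rfl⟩
    exact IntermediateField.subset_adjoin k _ (hst g x hx)
  have hgal : IsGalois k L := ⟨⟩
  have hnf : NumberField L := NumberField.of_module_finite k L
  -- the set in `L`
  let ΩL : Finset L := Ω.preimage (fun x : L => (x : AlgebraicClosure k)) (fun _ _ _ _ h => Subtype.ext h)
  have hmem : ∀ x : L, x ∈ ΩL ↔ (x : AlgebraicClosure k) ∈ Ω := fun x => Finset.mem_preimage
  have hres : ∀ (g : AlgebraicClosure k ≃ₐ[k] AlgebraicClosure k) (x : L),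
      ((g.restrictNormal L x : L) : AlgebraicClosure k) = g x := fun g x => g.restrictNormal_commutes L x
  obtain ⟨δ, C, Q, hδ, hQ, hden⟩ := der2 (k := k) ΩL (fun θ hθ => by
      have h1 := hint _ ((hmem θ).1 hθ)
      exact (isIntegral_algHom_iff (L.val.restrictScalars ℤ) (RingHom.injective _)).1 h1) (by
      intro g θ hθ
      obtain ⟨g', rfl⟩ := AlgEquiv.restrictNormalHom_surjective (F := k) (K₁ := L) (AlgebraicClosure k) g
      rw [hmem]
      change ((g'.restrictNormal L θ : L) : AlgebraicClosure k) ∈ Ω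
      rw [hres]
      exact hst g' _ ((hmem θ).1 hθ)) (σ.restrictNormal L) (by
      intro θ hθ e
      apply hσΩ _ ((hmem θ).1 hθ)
      rw [← hres, e]) B hB
  refine ⟨δ, C, Q, hδ, ?_, hden⟩
  intro v hv O F p f hD hF
  obtain ⟨ω, hω, hFω⟩ := (hfix F).1 hF
  have hωL : ω ∈ L := IntermediateField.subset_adjoin k _ hω
  -- the prime of `L` below `O`
  have hmemO : ∀ b : 𝓞 L, ((b : L) : AlgebraicClosure k) ∈ O := fun b =>
    int_mem O ((RingOfIntegers.isIntegral_coe b).map (L.val.restrictScalars ℤ))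
  let ρ : 𝓞 L →+* O := ((algebraMap L (AlgebraicClosure k)).comp (algebraMap (𝓞 L) L)).codRestrict
    O.toSubring hmemO
  let I : Ideal (𝓞 L) := (IsLocalRing.maximalIdeal O).comap ρ
  have hI : ∀ b : 𝓞 L, b ∈ I ↔ O.valuation ((b : L) : AlgebraicClosure k) < 1 := by
    intro b
    rw [Ideal.mem_comap, O.valuation_lt_one_iff]
    rfl
  have hval : ∀ a : 𝓞 k, O.valuation (algebraMap k (AlgebraicClosure k) (a : k)) < 1 ↔ a ∈ v.asIdeal := by
    intro a
    rw [← HeightOneSpectrum.valuation_lt_one_iff_mem (K := k) v a]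
    rcases eq_or_ne (a : k) 0 with h0 | h0
    · rw [h0, map_zero, map_zero]
      have h1 : v.valuation k (algebraMap (𝓞 k) k a) = 0 := by
        rw [show (algebraMap (𝓞 k) k a) = 0 from h0, map_zero]
      exact ⟨fun _ => lt_of_le_of_lt h1.le zero_lt_one, fun _ => zero_lt_one⟩
    · have h1 := hD.above ((a : k)⁻¹)
      rw [map_inv₀, map_inv₀, ← O.valuation_le_one_iff, map_inv₀,
        inv_le_one₀ (zero_lt_iff.2 ((Valuation.ne_zero_iff _).2 ((_root_.map_ne_zero _).2 h0))),
        inv_le_one₀ (zero_lt_iff.2 ((Valuation.ne_zero_iff _).2 h0))] at h1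
      rw [← not_le, ← not_le, h1]
  have hcomap : I.comap (algebraMap (𝓞 k) (𝓞 L)) = v.asIdeal := by
    ext a
    rw [Ideal.mem_comap, hI, ← hval]
    rfl
  have hIp : I.IsPrime := Ideal.IsPrime.comap ρ
  have hIb : I ≠ ⊥ := by
    intro h0
    apply v.ne_bot
    rw [← hcomap, h0, eq_bot_iff]
    intro a ha
    rw [Ideal.mem_comap, Ideal.mem_bot] at ha
    rw [Ideal.mem_bot]
    exact (FaithfulSMul.algebraMap_injective (𝓞 k) (𝓞 L)) (by rw [ha, map_zero])
  let b : 𝓞 L := ⟨⟨ω, hωL⟩, by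
    exact (isIntegral_algHom_iff (L.val.restrictScalars ℤ) (RingHom.injective _)).1 (hint ω hω)⟩
  refine hQ v hv ⟨I, hIp, hIb⟩ hcomap b ((hmem _).2 hω) ?_
  change b ^ nm v - b ∈ I
  rw [hI]
  have h2 := hD.frob.frob ω (int_mem O (hint ω hω))
  rw [← hD.norm] at h2
  change O.valuation (F ω - ω ^ nm v) < 1 at h2
  rw [hFω, Valuation.map_sub_swap] at h2
  have e : (((b ^ nm v - b : 𝓞 L) : L) : AlgebraicClosure k) = ω ^ nm v - ω := by
    push_cast
    rfl
  rw [e]
  exact h2

end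

end Pool.Agent.Helper22.LN
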